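import Pool.Agent.Q61.OT3

/-!
# Octahedrality does not pass from `F(M)` to `F(M, X)`
-/

namespace Pool.Agent.Results.MP_05d620_an.FreeTensorNotOctahedral

open Pool.Agent.Q61.OT Pool.Agent.H266R3.LF

lemma countable_TM : Countable TM := by
  have : Function.Injective (fun x : TM => match x with
    | .p i => (Sum.inl i : Fin 3 ⊕ ℕ)
    | .u k => Sum.inr k) := by
    intro x y h
    cases x <;> cases y <;> simp_all
  exact this.countable

/-- There are a countable, bounded, uniformly discrete metric space `M` with a base point `o`
such that the Lipschitz-free space of `M` has an octahedral norm, but its projective tensor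
product with the Euclidean plane has not. -/
theorem result : ∃ (M : Type) (_ : MetricSpace M) (o : M), Countable M ∧
    (∀ x y : M, dist x y ≤ 2) ∧ (∀ x y : M, x ≠ y → 1 / 4 ≤ dist x y) ∧
    Octahedral (FreeSp M o) ∧
    ¬ Octahedral (ProjTensor (FreeSp M o) (EuclideanSpace ℝ (Fin 2))) := by
  refine ⟨TM, inferInstance, tb, countable_TM, ?_, ?_, octahedral_free,
    not_octahedral_tensor⟩
  · intro x y
    have h1 := s3a
    have h2 := s3b
    rw [dist_def]
    cases x <;> cases y <;> simp only [tdist] <;> (try split_ifs) <;> linarith
  · intro x y hxy
    have h1 := s3a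
    have h2 := s3b
    cases x with
    | p i =>
      cases y with
      | p j => rw [dist_pp (by rintro rfl; exact hxy rfl)]; linarith
      | u k => rw [dist_pu]; norm_num
    | u k =>
      cases y with
      | p j => rw [dist_up]; norm_num
      | u l => rw [dist_uu (by rintro rfl; exact hxy rfl)]; linarith

end Pool.Agent.Results.MP_05d620_an.FreeTensorNotOctahedral
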